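import Mathlib

set_option autoImplicit false

namespace Pool.Agent.Results.MP_c5dce0_nt.Valuation

open PowerSeries Finset

/-- the power series `1/(1 - x^d)` over ℤ (for `d ≥ 1`) -/
noncomputable def geom (d : ℕ) : ℤ⟦X⟧ := invOfUnit (1 - X ^ d) 1

/-- `S_{k,m}(n)`: the coefficient of `x^n` in `(1-x)^{-m} ∏_i (1-x^{k^i})^{-m(k-1)}`; only the
factors with `i ≤ n` are kept, the others being `≡ 1` modulo `x^{n+1}` for `k ≥ 2`. -/
noncomputable def S (k m n : ℕ) : ℤ :=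
  coeff n (geom 1 ^ m * ∏ i ∈ range (n + 1), geom (k ^ i) ^ (m * (k - 1)))

theorem geom_mul (d : ℕ) (hd : d ≠ 0) : (1 - X ^ d) * geom d = 1 := by
  apply mul_invOfUnit
  simp [hd]

theorem expand_geom (d : ℕ) (hd : d ≠ 0) : expand d hd (geom 1) = geom d := by
  have h1 := congrArg (expand d hd) (geom_mul 1 one_ne_zero)
  simp only [map_mul, map_sub, map_one, pow_one, expand_X] at h1
  have h2 := geom_mul d hd
  linear_combination geom d * h1 - expand d hd (geom 1) * h2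

def t (n : ℕ) : ℤ := if n % 2 = 1 then 2 else if n % 8 = 2 then 1 else if n % 8 = 6 then 3 else 0

noncomputable def T : ℤ⟦X⟧ := PowerSeries.mk t

noncomputable def q : ℤ⟦X⟧ := 2 * X + X ^ 2 + 2 * X ^ 3 + 2 * X ^ 5 + 3 * X ^ 6 + 2 * X ^ 7

theorem T_mul : T * (1 - X ^ 8) = q := by
  ext n
  have e2 : (2 : ℤ⟦X⟧) = C 2 := rfl
  have e3 : (3 : ℤ⟦X⟧) = C 3 := rfl
  rw [mul_sub, mul_one, map_sub, coeff_mul_X_pow']
  simp only [T, q, coeff_mk, map_add, e2, e3, coeff_C_mul, coeff_X_pow, coeff_X, t]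
  split_ifs <;> omega

noncomputable def R : ℤ⟦X⟧ := (1 - X ^ 4) * geom 1 ^ 4

theorem R4 : ∃ E : ℤ⟦X⟧, R ^ 4 = 1 + 8 * T + 32 * E := by
  have h1 := geom_mul 1 one_ne_zero
  have h8 := geom_mul 8 (by norm_num)
  have h16 : (1 - X : ℤ⟦X⟧) ^ 16 * geom 1 ^ 16 = 1 := by
    rw [← mul_pow, ← pow_one (X : ℤ⟦X⟧), h1, one_pow]
  have hT : T = q * geom 8 := by
    rw [← T_mul, mul_assoc, h8, mul_one]
  have I : (1 - X ^ 4 : ℤ⟦X⟧) ^ 4 * (1 - X ^ 8) - (1 - X) ^ 16 * ((1 - X ^ 8) + 8 * q) =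
      32 * (4 * X ^ 2 - 39 * X ^ 3 + 201 * X ^ 4 - 694 * X ^ 5 + 1766 * X ^ 6 - 3513 * X ^ 7 +
        5698 * X ^ 8 - 7772 * X ^ 9 + 9075 * X ^ 10 - 9098 * X ^ 11 + 7800 * X ^ 12 -
        5800 * X ^ 13 + 4043 * X ^ 14 - 3046 * X ^ 15 + 2558 * X ^ 16 - 2052 * X ^ 17 +
        1357 * X ^ 18 - 687 * X ^ 19 + 255 * X ^ 20 - 66 * X ^ 21 + 11 * X ^ 22 - X ^ 23) := by
    simp only [q]
    ring
  have hR : R ^ 4 = (1 - X ^ 4 : ℤ⟦X⟧) ^ 4 * geom 1 ^ 16 := by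
    rw [R, mul_pow, ← pow_mul]
  rw [hR, hT]
  generalize (4 * X ^ 2 - 39 * X ^ 3 + 201 * X ^ 4 - 694 * X ^ 5 + 1766 * X ^ 6 - 3513 * X ^ 7 +
        5698 * X ^ 8 - 7772 * X ^ 9 + 9075 * X ^ 10 - 9098 * X ^ 11 + 7800 * X ^ 12 -
        5800 * X ^ 13 + 4043 * X ^ 14 - 3046 * X ^ 15 + 2558 * X ^ 16 - 2052 * X ^ 17 +
        1357 * X ^ 18 - 687 * X ^ 19 + 255 * X ^ 20 - 66 * X ^ 21 + 11 * X ^ 22 - X ^ 23 : ℤ⟦X⟧) = e at I
  generalize (1 - X ^ 4 : ℤ⟦X⟧) ^ 4 = A at I ⊢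
  generalize (1 - X : ℤ⟦X⟧) ^ 16 = B at I h16
  generalize (1 - X ^ 8 : ℤ⟦X⟧) = D at I h8
  generalize geom 1 ^ 16 = U at h16 ⊢
  generalize geom 8 = w at h8 ⊢
  refine ⟨e * U * w, ?_⟩
  linear_combination (U * w) * I - (A * U) * h8 + (D * w) * h16 + h8 + 8 * q * w * h16

theorem p4 (i : ℕ) : 4 ^ i ≠ 0 := by positivity

theorem prod_R (N : ℕ) : geom 1 * ∏ i ∈ range N, geom (4 ^ i) ^ 3 =
    geom (4 ^ N) * ∏ i ∈ range N, expand (4 ^ i) (p4 i) R := by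
  induction N with
  | zero => simp
  | succ N ih =>
    rw [prod_range_succ, prod_range_succ, ← mul_assoc, ih]
    have h := geom_mul (4 ^ (N + 1)) (p4 _)
    have e : expand (4 ^ N) (p4 N) R = (1 - X ^ (4 ^ (N + 1))) * geom (4 ^ N) ^ 4 := by
      rw [pow_succ 4 N]
      simp only [R, map_mul, map_sub, map_one, map_pow, expand_X, expand_geom, ← pow_mul]
    rw [e]
    linear_combination (-(geom (4 ^ N) ^ 4 * ∏ i ∈ range N, expand (4 ^ i) (p4 i) R)) * h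

theorem prod_R4 (N : ℕ) : ∃ E : ℤ⟦X⟧, (∏ i ∈ range N, expand (4 ^ i) (p4 i) R) ^ 4 =
    1 + 8 * (∑ i ∈ range N, expand (4 ^ i) (p4 i) T) + 32 * E := by
  induction N with
  | zero => exact ⟨0, by simp⟩
  | succ N ih =>
    obtain ⟨E, hE⟩ := ih
    obtain ⟨E', hE'⟩ := R4
    have h := congrArg (expand (4 ^ N) (p4 N)) hE'
    simp only [map_pow, map_add, map_mul, map_one, map_ofNat] at h
    rw [prod_range_succ, sum_range_succ, mul_pow, hE, h]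
    generalize (∑ i ∈ range N, expand (4 ^ i) (p4 i) T) = a
    generalize expand (4 ^ N) (p4 N) T = b
    generalize expand (4 ^ N) (p4 N) E' = c
    exact ⟨E + c + 2 * a * b + 8 * a * c + 8 * E * b + 32 * E * c, by ring⟩

theorem pow_lift (F K E : ℤ⟦X⟧) (h : F = 1 + 8 * K + 32 * E) (j : ℕ) :
    ∃ E' : ℤ⟦X⟧, F ^ (2 ^ j) = 1 + 2 ^ (j + 3) * (K + 4 * E') := by
  induction j with
  | zero => exact ⟨E, by rw [h]; ring⟩
  | succ j ih =>
    obtain ⟨E', hE'⟩ := ih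
    exact ⟨E' + 2 ^ j * (K + 4 * E') ^ 2, by rw [pow_succ, pow_mul, hE']; ring⟩

theorem coeff_sum_T (N a b : ℕ) (hb : ¬ 4 ∣ b) (ha : a < N) :
    coeff (4 ^ a * b) (∑ i ∈ range N, expand (4 ^ i) (p4 i) T) = t b := by
  rw [map_sum, sum_eq_single a]
  · rw [coeff_expand_mul, T, coeff_mk]
  · intro i _ hi
    rcases lt_or_gt_of_ne hi with h | h
    · obtain ⟨c, rfl⟩ := Nat.exists_eq_add_of_lt h
      have : 4 ^ (i + c + 1) * b = 4 ^ i * (4 * (4 ^ c * b)) := by ring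
      rw [this, coeff_expand_mul, T, coeff_mk, t]
      generalize 4 ^ c * b = z
      split_ifs <;> omega
    · apply coeff_expand_of_not_dvd
      intro hd
      obtain ⟨c, rfl⟩ := Nat.exists_eq_add_of_lt h
      rw [show 4 ^ (a + c + 1) = 4 ^ a * (4 * 4 ^ c) by ring,
        Nat.mul_dvd_mul_iff_left (by positivity)] at hd
      exact hb (dvd_of_mul_right_dvd hd)
  · intro h
    exact absurd (mem_range.2 ha) h

theorem S_eq (j a b : ℕ) (hb : ¬ 4 ∣ b) :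
    ∃ e : ℤ, S 4 (2 ^ (j + 2)) (4 ^ a * b) = 2 ^ (j + 3) * (t b + 4 * e) := by
  have hb0 : 0 < b := Nat.pos_of_ne_zero (by rintro rfl; exact hb (dvd_zero _))
  set n := 4 ^ a * b with hn
  have hn0 : n ≠ 0 := by positivity
  have ha : a < n + 1 := by
    have h1 : a < 4 ^ a := Nat.lt_pow_self (by norm_num)
    have h2 : 4 ^ a ≤ n := Nat.le_mul_of_pos_right _ hb0
    omega
  have hlt : n < 4 ^ (n + 1) := lt_trans (Nat.lt_succ_self n) (Nat.lt_pow_self (by norm_num))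
  obtain ⟨E, hE⟩ := prod_R4 (n + 1)
  obtain ⟨E', hE'⟩ := pow_lift _ _ _ hE j
  have e1 : geom 1 ^ 2 ^ (j + 2) * ∏ i ∈ range (n + 1), geom (4 ^ i) ^ (2 ^ (j + 2) * (4 - 1)) =
      geom (4 ^ (n + 1)) ^ 2 ^ (j + 2) *
        ((∏ i ∈ range (n + 1), expand (4 ^ i) (p4 i) R) ^ 4) ^ 2 ^ j := by
    rw [← pow_mul, show 4 * 2 ^ j = 2 ^ (j + 2) by ring, ← mul_pow, ← prod_R, mul_pow,
      ← prod_pow]
    congr 1
    apply prod_congr rfl
    intro i _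
    rw [← pow_mul, mul_comm]
  obtain ⟨Z, hZ⟩ : (X ^ (4 ^ (n + 1)) : ℤ⟦X⟧) ∣ geom (4 ^ (n + 1)) ^ 2 ^ (j + 2) - 1 := by
    refine dvd_trans ⟨geom (4 ^ (n + 1)), ?_⟩ (sub_one_dvd_pow_sub_one _ _)
    linear_combination geom_mul (4 ^ (n + 1)) (p4 _)
  refine ⟨coeff n E', ?_⟩
  rw [S, e1, hE', sub_eq_iff_eq_add.1 hZ, add_mul, one_mul, mul_assoc, map_add, coeff_X_pow_mul',
    if_neg (by omega), zero_add, map_add, coeff_one, if_neg hn0, zero_add]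
  have e2 : (2 : ℤ⟦X⟧) ^ (j + 3) = C (2 ^ (j + 3)) := by simp
  have e4 : (4 : ℤ⟦X⟧) = C 4 := rfl
  rw [e2, e4, coeff_C_mul, map_add, coeff_C_mul, hn, coeff_sum_T _ a b hb ha]

theorem val_int (k : ℕ) (u : ℤ) (hu : u % 2 = 1) : padicValInt 2 (2 ^ k * u) = k := by
  have hu0 : u ≠ 0 := by rintro rfl; simp at hu
  have hn : ¬ ((2 : ℕ) : ℤ) ∣ u := by push_cast; omega
  rw [padicValInt.mul (by positivity) hu0, padicValInt.eq_zero_of_not_dvd hn, add_zero]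
  simp [padicValInt, Int.natAbs_pow]

theorem val_nat (k u : ℕ) (hu : u % 2 = 1) : padicValNat 2 (2 ^ k * u) = k := by
  have hu0 : u ≠ 0 := by rintro rfl; simp at hu
  have hn : ¬ 2 ∣ u := by omega
  rw [padicValNat.mul (by positivity) hu0, padicValNat.eq_zero_of_not_dvd hn, add_zero]
  simp

theorem result (s n : ℕ) (hs : 2 ≤ s) (hn : 1 ≤ n) :
    S 4 (2 ^ s) n ≠ 0 ∧
      padicValInt 2 (S 4 (2 ^ s) n) = s + 1 + padicValNat 2 (2 * n) % 2 := by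
  obtain ⟨j, rfl⟩ : ∃ j, s = j + 2 := ⟨s - 2, by omega⟩
  obtain ⟨a, b, hb, rfl⟩ := Nat.exists_eq_pow_mul_and_not_dvd (by omega : n ≠ 0) 4 (by norm_num)
  obtain ⟨e, he⟩ := S_eq j a b hb
  rw [he]
  by_cases h : b % 2 = 1
  · have e1 : (2 : ℤ) ^ (j + 3) * (t b + 4 * e) = 2 ^ (j + 4) * (1 + 2 * e) := by
      simp only [t, h, if_true]; ring
    have e2 : 2 * (4 ^ a * b) = 2 ^ (2 * a + 1) * b := by
      rw [pow_succ, pow_mul]; norm_num; ring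
    rw [e1, e2, val_int _ _ (by omega), val_nat _ _ h]
    exact ⟨mul_ne_zero (by positivity) (by omega), by omega⟩
  · obtain ⟨c, rfl⟩ : ∃ c, b = 2 * c := ⟨b / 2, by omega⟩
    have e1 : (t (2 * c) + 4 * e) % 2 = 1 := by
      simp only [t]
      split_ifs <;> omega
    have e2 : 2 * (4 ^ a * (2 * c)) = 2 ^ (2 * a + 2) * c := by
      rw [pow_succ, pow_succ, pow_mul]; norm_num; ring
    rw [e2, val_int _ _ e1, val_nat _ _ (by omega)]
    exact ⟨mul_ne_zero (by positivity) (by omega), by omega⟩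

end Pool.Agent.Results.MP_c5dce0_nt.Valuation
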